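import Mathlib

set_option autoImplicit false

open MeasureTheory Filter Topology
open scoped ENNReal

namespace Pool.Agent.Results.MP_edcda5_an.ExplicitGehring

section Scalar

/-- Young's inequality in the form used throughout. -/
theorem young {p m t : ℝ} (hp : 1 < p) (hm : 0 ≤ m) (ht : 0 ≤ t) :
    p * (m ^ (p - 1) * t) ≤ t ^ p + (p - 1) * m ^ p := by
  have hp0 : 0 < p := by linarith
  have h := Real.geom_mean_le_arith_mean2_weighted (w₁ := 1 / p) (w₂ := (p - 1) / p)
    (p₁ := t ^ p) (p₂ := m ^ p) (by positivity) (div_nonneg (by linarith) hp0.le)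
    (by positivity) (by positivity) (by field_simp; ring)
  rw [← Real.rpow_mul ht, ← Real.rpow_mul hm, mul_one_div_cancel hp0.ne', Real.rpow_one,
    mul_div_cancel₀ _ hp0.ne'] at h
  have h2 := mul_le_mul_of_nonneg_left h hp0.le
  calc p * (m ^ (p - 1) * t) = p * (t * m ^ (p - 1)) := by ring
    _ ≤ _ := h2
    _ = t ^ p + (p - 1) * m ^ p := by field_simp

theorem rpow_sub_one_mul {p m : ℝ} (hp : 1 < p) (hm : 0 ≤ m) : m ^ (p - 1) * m = m ^ p := by
  rcases hm.eq_or_lt with h | h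
  · subst h
    rw [mul_zero, Real.zero_rpow (by linarith)]
  · rw [← Real.rpow_add_one h.ne']; congr 1; ring

/-- The key jump estimate for the running maximum. -/
theorem jump {δ D m s : ℝ} (hδ : 0 < δ) (hD : 0 ≤ D) (hm : 0 ≤ m) (hms : m ≤ s) (hs : s ≤ D * m) :
    (s ^ δ - m ^ δ) * s ≤ D * (δ / (1 + δ)) * (s ^ (1 + δ) - m ^ (1 + δ)) := by
  have hs0 : 0 ≤ s := hm.trans hms
  have h1 : m ^ δ ≤ s ^ δ := Real.rpow_le_rpow hm hms hδ.le
  have h2 : (s ^ δ - m ^ δ) * s ≤ (s ^ δ - m ^ δ) * (D * m) :=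
    mul_le_mul_of_nonneg_left hs (by linarith)
  have h3 := young (p := 1 + δ) (m := s) (t := m) (by linarith) hs0 hm
  have e1 : (1 + δ - 1 : ℝ) = δ := by ring
  rw [e1] at h3
  have h4 := rpow_sub_one_mul (p := 1 + δ) (m := m) (by linarith) hm
  rw [e1] at h4
  have h5 : (s ^ δ - m ^ δ) * m ≤ (δ / (1 + δ)) * (s ^ (1 + δ) - m ^ (1 + δ)) := by
    rw [div_mul_eq_mul_div, le_div_iff₀ (by linarith), sub_mul, h4]
    nlinarith
  calc (s ^ δ - m ^ δ) * s ≤ (s ^ δ - m ^ δ) * (D * m) := h2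
    _ = D * ((s ^ δ - m ^ δ) * m) := by ring
    _ ≤ D * ((δ / (1 + δ)) * (s ^ (1 + δ) - m ^ (1 + δ))) := mul_le_mul_of_nonneg_left h5 hD
    _ = _ := by ring

/-- Burkholder's tangent inequality for Doob's maximal theorem. -/
theorem tangent {p m s : ℝ} (hp : 1 < p) (hm : 0 ≤ m) (hs : 0 ≤ s) :
    m ^ p ≤ (p / (p - 1)) ^ p * s ^ p + p * m ^ (p - 1) * (m - p / (p - 1) * s) := by
  have hC : 0 ≤ p / (p - 1) := div_nonneg (by linarith) (by linarith)
  have h := young hp hm (mul_nonneg hC hs)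
  rw [Real.mul_rpow hC hs] at h
  have h2 := rpow_sub_one_mul hp hm
  have h3 : p * m ^ (p - 1) * (m - p / (p - 1) * s) =
      p * (m ^ (p - 1) * m) - p * (m ^ (p - 1) * (p / (p - 1) * s)) := by ring
  rw [h3, h2]
  linarith

theorem excess {p m s : ℝ} (hp : 1 < p) (hm : 0 ≤ m) (hs : 0 ≤ s) :
    p * s ^ (p - 1) * (s - p / (p - 1) * s) ≤ p * m ^ (p - 1) * (m - p / (p - 1) * s) := by
  have hp1 : 0 < p - 1 := by linarith
  have h := young hp hm hs
  have h1 := rpow_sub_one_mul hp hm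
  have h2 := rpow_sub_one_mul hp hs
  have e1 : p * s ^ (p - 1) * (s - p / (p - 1) * s) = -(p / (p - 1)) * s ^ p := by
    rw [← h2]; field_simp; ring
  have e2 : p * m ^ (p - 1) * (m - p / (p - 1) * s) =
      (p / (p - 1)) * ((p - 1) * m ^ p - p * (m ^ (p - 1) * s)) := by
    rw [← h1]; field_simp
  rw [e1, e2, neg_mul, ← mul_neg]
  exact mul_le_mul_of_nonneg_left (by linarith) (div_nonneg (by linarith) hp1.le)

end Scalar

section Tree

variable {T ι : Type*} [Fintype ι]

/-- Expectation over the leaves at depth `n` of a functional of the leaf and of the running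
maximum of `v` along the branch (started at `m`). -/
noncomputable def E (ch : T → ι → T) (v : T → ℝ) (Φ : T → ℝ → ℝ) : ℕ → T → ℝ → ℝ
  | 0, R, m => Φ R m
  | n + 1, R, m => (∑ σ, E ch v Φ n (ch R σ) (max m (v (ch R σ)))) / (Fintype.card ι : ℝ)

variable {ch : T → ι → T} [Nonempty ι]

theorem card_pos' : (0 : ℝ) < Fintype.card ι := by exact_mod_cast Fintype.card_pos

/-- Averaging an inequality over the children. -/
theorem avg_le {f g : ι → ℝ} (h : ∀ σ, f σ ≤ g σ) :
    (∑ σ, f σ) / (Fintype.card ι : ℝ) ≤ (∑ σ, g σ) / (Fintype.card ι : ℝ) :=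
  div_le_div_of_nonneg_right (Finset.sum_le_sum fun σ _ => h σ) card_pos'.le

/-- Doob's `L^p` maximal inequality on the tree. -/
theorem doob {p : ℝ} (hp : 1 < p) {F G : T → ℝ}
    (hF : ∀ R, (∑ σ, F (ch R σ)) / (Fintype.card ι : ℝ) = F R)
    (hG : ∀ R, (∑ σ, G (ch R σ)) / (Fintype.card ι : ℝ) = G R)
    (hF0 : ∀ R, 0 ≤ F R) (hFG : ∀ R, F R ^ p ≤ G R) :
    ∀ (n : ℕ) (R : T) (m : ℝ), F R ≤ m →
      E ch F (fun _ m => m ^ p) n R m ≤
        (p / (p - 1)) ^ p * G R + p * m ^ (p - 1) * (m - p / (p - 1) * F R) := by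
  intro n
  induction n with
  | zero =>
    intro R m hm
    have hm0 : 0 ≤ m := (hF0 R).trans hm
    have h1 := tangent hp hm0 (hF0 R)
    have h2 : (p / (p - 1)) ^ p * F R ^ p ≤ (p / (p - 1)) ^ p * G R :=
      mul_le_mul_of_nonneg_left (hFG R)
        (Real.rpow_nonneg (div_nonneg (by linarith) (by linarith)) _)
    show m ^ p ≤ _
    linarith
  | succ n ih =>
    intro R m hm
    have hm0 : 0 ≤ m := (hF0 R).trans hm
    have key : ∀ σ, E ch F (fun _ m => m ^ p) n (ch R σ) (max m (F (ch R σ))) ≤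
        (p / (p - 1)) ^ p * G (ch R σ) + p * m ^ (p - 1) * (m - p / (p - 1) * F (ch R σ)) := by
      intro σ
      refine (ih (ch R σ) _ (le_max_right _ _)).trans ?_
      rcases le_total (F (ch R σ)) m with h | h
      · rw [max_eq_left h]
      · rw [max_eq_right h]
        have := excess hp hm0 (hF0 (ch R σ))
        linarith
    refine (avg_le key).trans (le_of_eq ?_)
    have e1 : ∑ σ, ((p / (p - 1)) ^ p * G (ch R σ) +
        p * m ^ (p - 1) * (m - p / (p - 1) * F (ch R σ))) =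
        (p / (p - 1)) ^ p * (∑ σ, G (ch R σ)) + p * m ^ (p - 1) *
          ((Fintype.card ι : ℝ) * m - p / (p - 1) * ∑ σ, F (ch R σ)) := by
      rw [Finset.sum_add_distrib, ← Finset.mul_sum, ← Finset.mul_sum, Finset.sum_sub_distrib,
        ← Finset.mul_sum, Finset.sum_const, Finset.card_univ, nsmul_eq_mul]
    have hc : (Fintype.card ι : ℝ) ≠ 0 := card_pos'.ne'
    have e2 := hF R
    have e3 := hG R
    rw [div_eq_iff hc] at e2 e3
    rw [e1, e2, e3]
    field_simp

/-- Comparison of the running maxima of `u ≤ A^p F^p` and `F`. -/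
theorem compare {p A : ℝ} (hp : 1 < p) (hA : 0 ≤ A) {F u : T → ℝ} (hF0 : ∀ R, 0 ≤ F R)
    (hu : ∀ R, u R ≤ A * F R ^ p) :
    ∀ (n : ℕ) (R : T) (m m' : ℝ), 0 ≤ m' → m ≤ A * m' ^ p →
      E ch u (fun _ m => m) n R m ≤ A * E ch F (fun _ m => m ^ p) n R m' := by
  intro n
  induction n with
  | zero => intro R m m' _ h; exact h
  | succ n ih =>
    intro R m m' hm' h
    have key : ∀ σ, E ch u (fun _ m => m) n (ch R σ) (max m (u (ch R σ))) ≤
        A * E ch F (fun _ m => m ^ p) n (ch R σ) (max m' (F (ch R σ))) := by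
      intro σ
      refine ih _ _ _ (hm'.trans (le_max_left _ _)) (max_le ?_ ?_)
      · exact h.trans (mul_le_mul_of_nonneg_left
          (Real.rpow_le_rpow hm' (le_max_left _ _) (by linarith)) hA)
      · exact (hu _).trans (mul_le_mul_of_nonneg_left
          (Real.rpow_le_rpow (hF0 _) (le_max_right _ _) (by linarith)) hA)
    refine (avg_le key).trans (le_of_eq ?_)
    rw [← Finset.mul_sum, mul_div_assoc]
    rfl

/-- The `L^{1+δ}` bound for the running maximum in terms of its `L^1` bound. -/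
theorem maximal_power {δ K : ℝ} (hδ : 0 < δ) (hK : 0 ≤ K) {u : T → ℝ}
    (hu : ∀ R, (∑ σ, u (ch R σ)) / (Fintype.card ι : ℝ) = u R) (hu0 : ∀ R, 0 ≤ u R)
    (hFW : ∀ n R, E ch u (fun _ m => m) n R (u R) ≤ K * u R) :
    ∀ (n : ℕ) (R : T) (m : ℝ), u R ≤ m →
      E ch u (fun _ m => m ^ (1 + δ)) n R m ≤ m ^ δ * E ch u (fun _ m => m) n R m +
        K * ((Fintype.card ι : ℝ) * (δ / (1 + δ))) *
          (E ch u (fun _ m => m ^ (1 + δ)) n R m - m ^ (1 + δ)) := by
  intro n
  induction n with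
  | zero =>
    intro R m hm
    have hm0 : 0 ≤ m := (hu0 R).trans hm
    have h4 := rpow_sub_one_mul (p := 1 + δ) (m := m) (by linarith) hm0
    have e1 : (1 + δ - 1 : ℝ) = δ := by ring
    rw [e1] at h4
    show m ^ (1 + δ) ≤ m ^ δ * m + _ * (m ^ (1 + δ) - m ^ (1 + δ))
    rw [h4, sub_self, mul_zero, add_zero]
  | succ n ih =>
    intro R m hm
    have hm0 : 0 ≤ m := (hu0 R).trans hm
    set κ : ℝ := K * ((Fintype.card ι : ℝ) * (δ / (1 + δ))) with hκ
    have hc : (0 : ℝ) < Fintype.card ι := card_pos'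
    have hchild : ∀ σ, u (ch R σ) ≤ Fintype.card ι * m := by
      intro σ
      have h1 := hu R
      rw [div_eq_iff hc.ne'] at h1
      have h2 : u (ch R σ) ≤ ∑ σ, u (ch R σ) :=
        Finset.single_le_sum (f := fun σ => u (ch R σ)) (fun i _ => hu0 _) (Finset.mem_univ σ)
      rw [h1] at h2
      nlinarith
    have key : ∀ σ, E ch u (fun _ m => m ^ (1 + δ)) n (ch R σ) (max m (u (ch R σ))) ≤
        m ^ δ * E ch u (fun _ m => m) n (ch R σ) (max m (u (ch R σ))) +
        κ * (E ch u (fun _ m => m ^ (1 + δ)) n (ch R σ) (max m (u (ch R σ))) - m ^ (1 + δ)) := by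
      intro σ
      have h0 := ih (ch R σ) _ (le_max_right m (u (ch R σ)))
      refine h0.trans ?_
      rcases le_total (u (ch R σ)) m with h | h
      · rw [max_eq_left h]
      · rw [max_eq_right h]
        have h1 := jump hδ hc.le hm0 h (hchild σ)
        have h2 := hFW n (ch R σ)
        have h3 : m ^ δ ≤ u (ch R σ) ^ δ := Real.rpow_le_rpow hm0 h hδ.le
        have h4 : (u (ch R σ) ^ δ - m ^ δ) * E ch u (fun _ m => m) n (ch R σ) (u (ch R σ)) ≤
            (u (ch R σ) ^ δ - m ^ δ) * (K * u (ch R σ)) :=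
          mul_le_mul_of_nonneg_left h2 (by linarith)
        have h5 : K * ((u (ch R σ) ^ δ - m ^ δ) * u (ch R σ)) ≤
            K * (Fintype.card ι * (δ / (1 + δ)) * (u (ch R σ) ^ (1 + δ) - m ^ (1 + δ))) :=
          mul_le_mul_of_nonneg_left h1 hK
        rw [hκ]
        nlinarith
    refine (avg_le key).trans (le_of_eq ?_)
    show _ = m ^ δ * ((∑ σ, _) / (Fintype.card ι : ℝ)) +
      κ * ((∑ σ, _) / (Fintype.card ι : ℝ) - m ^ (1 + δ))
    rw [Finset.sum_add_distrib, ← Finset.mul_sum, ← Finset.mul_sum, Finset.sum_sub_distrib,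
      Finset.sum_const, Finset.card_univ, nsmul_eq_mul]
    field_simp

/-- The bound for `u_n M_n^δ`. -/
theorem leaf_power {δ : ℝ} (hδ : 0 < δ) {u : T → ℝ}
    (hu : ∀ R, (∑ σ, u (ch R σ)) / (Fintype.card ι : ℝ) = u R) (hu0 : ∀ R, 0 ≤ u R) :
    ∀ (n : ℕ) (R : T) (m : ℝ), u R ≤ m →
      E ch u (fun P m => u P * m ^ δ) n R m ≤ m ^ δ * u R +
        ((Fintype.card ι : ℝ) * (δ / (1 + δ))) *
          (E ch u (fun _ m => m ^ (1 + δ)) n R m - m ^ (1 + δ)) := by
  intro n
  induction n with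
  | zero =>
    intro R m hm
    show u R * m ^ δ ≤ m ^ δ * u R + _ * (m ^ (1 + δ) - m ^ (1 + δ))
    rw [sub_self, mul_zero, add_zero, mul_comm]
  | succ n ih =>
    intro R m hm
    have hm0 : 0 ≤ m := (hu0 R).trans hm
    set κ : ℝ := ((Fintype.card ι : ℝ) * (δ / (1 + δ))) with hκ
    have hc : (0 : ℝ) < Fintype.card ι := card_pos'
    have hchild : ∀ σ, u (ch R σ) ≤ Fintype.card ι * m := by
      intro σ
      have h1 := hu R
      rw [div_eq_iff hc.ne'] at h1
      have h2 : u (ch R σ) ≤ ∑ σ, u (ch R σ) :=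
        Finset.single_le_sum (f := fun σ => u (ch R σ)) (fun i _ => hu0 _) (Finset.mem_univ σ)
      rw [h1] at h2
      nlinarith
    have key : ∀ σ, E ch u (fun P m => u P * m ^ δ) n (ch R σ) (max m (u (ch R σ))) ≤
        m ^ δ * u (ch R σ) +
        κ * (E ch u (fun _ m => m ^ (1 + δ)) n (ch R σ) (max m (u (ch R σ))) - m ^ (1 + δ)) := by
      intro σ
      have h0 := ih (ch R σ) _ (le_max_right m (u (ch R σ)))
      refine h0.trans ?_
      rcases le_total (u (ch R σ)) m with h | h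
      · rw [max_eq_left h]
      · rw [max_eq_right h]
        have h1 := jump hδ hc.le hm0 h (hchild σ)
        rw [hκ]
        nlinarith
    refine (avg_le key).trans (le_of_eq ?_)
    show _ = m ^ δ * u R + κ * ((∑ σ, _) / (Fintype.card ι : ℝ) - m ^ (1 + δ))
    have h1 := hu R
    rw [div_eq_iff hc.ne'] at h1
    rw [Finset.sum_add_distrib, ← Finset.mul_sum, ← Finset.mul_sum, Finset.sum_sub_distrib,
      Finset.sum_const, Finset.card_univ, nsmul_eq_mul, h1]
    field_simp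

/-- Monotonicity in the functional. -/
theorem E_mono {v : T → ℝ} {Φ Ψ : T → ℝ → ℝ} (h : ∀ P m, v P ≤ m → Φ P m ≤ Ψ P m) :
    ∀ (n : ℕ) (R : T) (m : ℝ), v R ≤ m → E ch v Φ n R m ≤ E ch v Ψ n R m := by
  intro n
  induction n with
  | zero => intro R m hm; exact h R m hm
  | succ n ih => intro R m _; exact avg_le fun σ => ih _ _ (le_max_right _ _)

/-- The tree form of the reverse Hölder inequality with explicit exponent. -/
theorem tree_main {p A δ : ℝ} (hp : 1 < p) (hA : 0 ≤ A) (hδ : 0 < δ) {F u : T → ℝ}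
    (hF : ∀ R, (∑ σ, F (ch R σ)) / (Fintype.card ι : ℝ) = F R)
    (hu : ∀ R, (∑ σ, u (ch R σ)) / (Fintype.card ι : ℝ) = u R)
    (hF0 : ∀ R, 0 ≤ F R) (hFu : ∀ R, F R ^ p ≤ u R) (huF : ∀ R, u R ≤ A * F R ^ p)
    (hsmall : 2 * (A * (p / (p - 1)) ^ p) * ((Fintype.card ι : ℝ) * (δ / (1 + δ))) ≤ 1)
    (n : ℕ) (R : T) :
    E ch u (fun P _ => u P ^ (1 + δ)) n R (u R) ≤ 2 * u R ^ (1 + δ) := by
  have hu0 : ∀ R, 0 ≤ u R := fun R => (Real.rpow_nonneg (hF0 R) p).trans (hFu R)
  have hC : 0 ≤ (p / (p - 1)) ^ p := Real.rpow_nonneg (div_nonneg (by linarith) (by linarith)) _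
  set K : ℝ := A * (p / (p - 1)) ^ p with hKdef
  have hK : 0 ≤ K := mul_nonneg hA hC
  have hFW : ∀ n R, E ch u (fun _ m => m) n R (u R) ≤ K * u R := by
    intro n R
    have h1 := compare (ch := ch) hp hA hF0 huF n R (u R) (F R) (hF0 R) (huF R)
    have h2 := doob (ch := ch) hp hF hu hF0 hFu n R (F R) le_rfl
    have h3 : p * F R ^ (p - 1) * (F R - p / (p - 1) * F R) ≤ 0 := by
      have h4 : F R - p / (p - 1) * F R = -(F R / (p - 1)) := by
        have : p - 1 ≠ 0 := by linarith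
        field_simp; ring
      rw [h4]
      have : 0 ≤ F R / (p - 1) := div_nonneg (hF0 R) (by linarith)
      have h5 : 0 ≤ p * F R ^ (p - 1) := mul_nonneg (by linarith) (Real.rpow_nonneg (hF0 R) _)
      nlinarith
    have h4 : A * E ch F (fun _ m => m ^ p) n R (F R) ≤ A * ((p / (p - 1)) ^ p * u R) :=
      mul_le_mul_of_nonneg_left (by linarith) hA
    calc _ ≤ _ := h1
      _ ≤ _ := h4
      _ = K * u R := by rw [hKdef]; ring
  set κ : ℝ := (Fintype.card ι : ℝ) * (δ / (1 + δ)) with hκ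
  have hκ0 : 0 ≤ κ := mul_nonneg card_pos'.le (div_nonneg hδ.le (by linarith))
  have hb := maximal_power (ch := ch) hδ hK hu hu0 hFW n R (u R) le_rfl
  have hc := leaf_power (ch := ch) hδ hu hu0 n R (u R) le_rfl
  have h0 := hFW n R
  have hpow := rpow_sub_one_mul (p := 1 + δ) (m := u R) (by linarith) (hu0 R)
  have e1 : (1 + δ - 1 : ℝ) = δ := by ring
  rw [e1] at hpow
  have hR0 : 0 ≤ u R ^ δ := Real.rpow_nonneg (hu0 R) _
  have hR1 : 0 ≤ u R ^ (1 + δ) := Real.rpow_nonneg (hu0 R) _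
  have h1 : E ch u (fun P _ => u P ^ (1 + δ)) n R (u R) ≤
      E ch u (fun P m => u P * m ^ δ) n R (u R) := by
    refine E_mono (fun P m hm => ?_) n R (u R) le_rfl
    have hpP := rpow_sub_one_mul (p := 1 + δ) (m := u P) (by linarith) (hu0 P)
    rw [e1] at hpP
    rw [← hpP, mul_comm]
    exact mul_le_mul_of_nonneg_left (Real.rpow_le_rpow (hu0 P) hm hδ.le) (hu0 P)
  set b := E ch u (fun _ m => m ^ (1 + δ)) n R (u R) with hbdef
  have h2 : u R ^ δ * E ch u (fun _ m => m) n R (u R) ≤ K * u R ^ (1 + δ) := by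
    calc _ ≤ u R ^ δ * (K * u R) := mul_le_mul_of_nonneg_left h0 hR0
      _ = K * (u R ^ δ * u R) := by ring
      _ = _ := by rw [hpow]
  have hb0 : 0 ≤ b := by
    have : ∀ (n : ℕ) (R : T) (m : ℝ), 0 ≤ m → 0 ≤ E ch u (fun _ m => m ^ (1 + δ)) n R m := by
      intro n
      induction n with
      | zero => intro R m hm; exact Real.rpow_nonneg hm _
      | succ n ih =>
        intro R m hm
        exact div_nonneg (Finset.sum_nonneg fun σ _ => ih _ _ (hm.trans (le_max_left _ _)))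
          card_pos'.le
    exact this n R (u R) (hu0 R)
  have hKκ : K * κ ≤ 1 / 2 := by linarith
  -- b ≤ K u^{1+δ} + Kκ (b - u^{1+δ}) ≤ K u^{1+δ} + b/2
  have h3 : b ≤ 2 * K * u R ^ (1 + δ) := by
    have hKκ0 : 0 ≤ K * κ := mul_nonneg hK hκ0
    have h5 : K * κ * (b - u R ^ (1 + δ)) ≤ 1 / 2 * b := by nlinarith
    linarith
  have h4 : κ * (b - u R ^ (1 + δ)) ≤ u R ^ (1 + δ) := by
    have h5 : κ * b ≤ κ * (2 * K * u R ^ (1 + δ)) := mul_le_mul_of_nonneg_left h3 hκ0
    have h6 : κ * (2 * K * u R ^ (1 + δ)) = 2 * K * κ * u R ^ (1 + δ) := by ring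
    have h7 : 2 * K * κ * u R ^ (1 + δ) ≤ 1 * u R ^ (1 + δ) :=
      mul_le_mul_of_nonneg_right hsmall hR1
    have h8 : 0 ≤ κ * u R ^ (1 + δ) := mul_nonneg hκ0 hR1
    linarith
  rw [hpow] at hc
  linarith

end Tree

section Cubes

variable {d : ℕ}

/-- The closed axis-parallel cube with lower corner `a` and side length `h`. -/
def cube (a : Fin d → ℝ) (h : ℝ) : Set (Fin d → ℝ) := Set.Icc a (fun i => a i + h)

/-- The half-open cube. -/
def hcube (a : Fin d → ℝ) (h : ℝ) : Set (Fin d → ℝ) :=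
  Set.pi Set.univ fun i => Set.Ico (a i) (a i + h)

theorem hcube_ae_eq (a : Fin d → ℝ) (h : ℝ) : hcube a h =ᵐ[volume] cube a h :=
  Measure.univ_pi_Ico_ae_eq_Icc

theorem measurableSet_hcube (a : Fin d → ℝ) (h : ℝ) : MeasurableSet (hcube a h) :=
  MeasurableSet.univ_pi fun _ => measurableSet_Ico

theorem volume_hcube (a : Fin d → ℝ) (h : ℝ) : volume (hcube a h) = ENNReal.ofReal h ^ d := by
  rw [hcube, Real.volume_pi_Ico]
  simp

theorem volume_real_hcube (a : Fin d → ℝ) {h : ℝ} (hh : 0 < h) :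
    volume.real (hcube a h) = h ^ d := by
  rw [Measure.real, volume_hcube, ENNReal.toReal_pow, ENNReal.toReal_ofReal hh.le]

/-- Nodes of the tree: cubes of positive side length. -/
abbrev Node (d : ℕ) : Type := (Fin d → ℝ) × {h : ℝ // 0 < h}

/-- The half-open cube of a node. -/
def nc (R : Node d) : Set (Fin d → ℝ) := hcube R.1 R.2.1

/-- The `2^d` children. -/
noncomputable def chd (R : Node d) (σ : Fin d → Bool) : Node d :=
  (fun i => R.1 i + if σ i then R.2.1 / 2 else 0, ⟨R.2.1 / 2, half_pos R.2.2⟩)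

theorem mem_chd {R : Node d} {σ : Fin d → Bool} {x : Fin d → ℝ} :
    x ∈ nc (chd R σ) ↔ x ∈ nc R ∧ ∀ i, σ i = decide (R.1 i + R.2.1 / 2 ≤ x i) := by
  have hh := R.2.2
  simp only [nc, hcube, chd, Set.mem_pi, Set.mem_univ, true_implies, Set.mem_Ico]
  constructor
  · intro h
    refine ⟨fun i => ?_, fun i => ?_⟩
    · have := h i
      cases hσ : σ i <;> simp only [hσ, if_true, Bool.false_eq_true, if_false] at this <;>
        constructor <;> linarith [this.1, this.2]
    · have := h i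
      cases hσ : σ i <;> simp only [hσ, if_true, Bool.false_eq_true, if_false] at this
      · symm; rw [decide_eq_false_iff_not, not_le]; linarith [this.2]
      · symm; rw [decide_eq_true_iff]; linarith [this.1]
  · rintro ⟨h1, h2⟩ i
    have h3 := h1 i
    have h4 := h2 i
    cases hσ : σ i
    · rw [hσ] at h4
      have h5 := decide_eq_false_iff_not.1 h4.symm
      simp only [Bool.false_eq_true, if_false]
      constructor <;> linarith [h3.1, h3.2]
    · rw [hσ] at h4
      have h5 := decide_eq_true_iff.1 h4.symm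
      simp only [if_true]
      constructor <;> linarith [h3.1, h3.2]

theorem iUnion_chd (R : Node d) : ⋃ σ, nc (chd R σ) = nc R := by
  ext x
  rw [Set.mem_iUnion]
  constructor
  · rintro ⟨σ, h⟩
    exact (mem_chd.1 h).1
  · intro h
    exact ⟨fun i => decide (R.1 i + R.2.1 / 2 ≤ x i), mem_chd.2 ⟨h, fun _ => rfl⟩⟩

theorem disjoint_chd (R : Node d) : Pairwise (Function.onFun Disjoint fun σ => nc (chd R σ)) := by
  intro σ τ hne
  rw [Function.onFun, Set.disjoint_left]
  intro x h1 h2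
  apply hne
  funext i
  rw [(mem_chd.1 h1).2 i, (mem_chd.1 h2).2 i]

theorem measurableSet_nc (R : Node d) : MeasurableSet (nc R) := measurableSet_hcube _ _

theorem volume_nc (R : Node d) : volume.real (nc R) = R.2.1 ^ d := volume_real_hcube _ R.2.2

theorem volume_nc_pos (R : Node d) : 0 < volume (nc R) := by
  rw [nc, volume_hcube]
  exact ENNReal.pow_pos (ENNReal.ofReal_pos.2 R.2.2) _

theorem volume_nc_lt_top (R : Node d) : volume (nc R) < ∞ := by
  rw [nc, volume_hcube]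
  exact ENNReal.pow_lt_top ENNReal.ofReal_lt_top

theorem integrableOn_nc {f : (Fin d → ℝ) → ℝ} (hf : LocallyIntegrable f) (R : Node d) :
    IntegrableOn f (nc R) := by
  refine (hf.integrableOn_isCompact (k := cube R.1 R.2.1) isCompact_Icc).mono_set ?_
  intro x hx
  rw [cube, Set.mem_Icc]
  simp only [nc, hcube, Set.mem_pi, Set.mem_univ, true_implies, Set.mem_Ico] at hx
  exact ⟨fun i => (hx i).1, fun i => (hx i).2.le⟩

/-- Averages over the cubes form a martingale on the tree. -/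
theorem average_chd {f : (Fin d → ℝ) → ℝ} (hf : LocallyIntegrable f) (R : Node d) :
    (∑ σ, ⨍ x in nc (chd R σ), f x) / (Fintype.card (Fin d → Bool) : ℝ) = ⨍ x in nc R, f x := by
  have h1 : ∫ x in nc R, f x = ∑ σ, ∫ x in nc (chd R σ), f x := by
    rw [← iUnion_chd R]
    exact integral_iUnion_fintype (fun σ => measurableSet_nc _) (disjoint_chd R)
      (fun σ => integrableOn_nc hf _)
  simp only [setAverage_eq, volume_nc, smul_eq_mul]
  rw [h1]
  have h2 : (Fintype.card (Fin d → Bool) : ℝ) = 2 ^ d := by simp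
  have h3 : (chd R default).2.1 = R.2.1 / 2 := rfl
  have h4 : ∀ σ, (((chd R σ).2.1 ^ d)⁻¹ * ∫ x in nc (chd R σ), f x) =
      ((R.2.1 / 2) ^ d)⁻¹ * ∫ x in nc (chd R σ), f x := fun σ => rfl
  simp only [h4]
  rw [← Finset.mul_sum, h2, div_pow, inv_div]
  have h5 : R.2.1 ^ d ≠ 0 := pow_ne_zero _ R.2.2.ne'
  have h6 : (2 : ℝ) ^ d ≠ 0 := by positivity
  field_simp

end Cubes

section Limit

variable {d : ℕ}

/-- The dyadic averages of `v` at depth `n` inside `R`, as a function of the point. -/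
noncomputable def dy (v : (Fin d → ℝ) → ℝ) : ℕ → Node d → (Fin d → ℝ) → ℝ
  | 0, R => fun _ => ⨍ y in nc R, v y
  | n + 1, R => fun x => ∑ σ, (nc (chd R σ)).indicator (dy v n (chd R σ)) x

theorem measurable_dy (v : (Fin d → ℝ) → ℝ) : ∀ (n : ℕ) (R : Node d), Measurable (dy v n R) := by
  intro n
  induction n with
  | zero => intro R; exact measurable_const
  | succ n ih =>
    intro R
    exact Finset.measurable_sum _ fun σ _ => (ih _).indicator (measurableSet_nc _)

theorem dy_succ (v : (Fin d → ℝ) → ℝ) (n : ℕ) (R : Node d) (σ : Fin d → Bool) {x : Fin d → ℝ}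
    (hx : x ∈ nc (chd R σ)) : dy v (n + 1) R x = dy v n (chd R σ) x := by
  show ∑ τ, (nc (chd R τ)).indicator (dy v n (chd R τ)) x = _
  rw [Finset.sum_eq_single σ]
  · exact Set.indicator_of_mem hx _
  · intro τ _ hτ
    refine Set.indicator_of_notMem (fun h => ?_) _
    exact Set.disjoint_left.1 (disjoint_chd R hτ) h hx
  · intro h; exact absurd (Finset.mem_univ _) h

theorem dy_eq (v : (Fin d → ℝ) → ℝ) : ∀ (n : ℕ) (R : Node d) (x : Fin d → ℝ), x ∈ nc R →
    ∃ P : Node d, x ∈ nc P ∧ P.2.1 = R.2.1 / 2 ^ n ∧ dy v n R x = ⨍ y in nc P, v y := by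
  intro n
  induction n with
  | zero => intro R x hx; exact ⟨R, hx, by simp, rfl⟩
  | succ n ih =>
    intro R x hx
    rw [← iUnion_chd R, Set.mem_iUnion] at hx
    obtain ⟨σ, hσ⟩ := hx
    obtain ⟨P, hP1, hP2, hP3⟩ := ih (chd R σ) x hσ
    refine ⟨P, hP1, ?_, by rw [dy_succ v n R σ hσ, hP3]⟩
    rw [hP2]
    show R.2.1 / 2 / 2 ^ n = _
    rw [pow_succ]; field_simp

/-- The integral of the `q`-th power of the dyadic averages. -/
theorem lintegral_dy (v : (Fin d → ℝ) → ℝ) (q : ℝ) (hv : ∀ R : Node d, 0 ≤ ⨍ y in nc R, v y) :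
    ∀ (n : ℕ) (R : Node d) (m : ℝ),
      ∫⁻ x in nc R, ENNReal.ofReal (dy v n R x ^ q) =
        volume (nc R) * ENNReal.ofReal
          (E chd (fun P => ⨍ y in nc P, v y) (fun P _ => (⨍ y in nc P, v y) ^ q) n R m) := by
  have hE : ∀ (n : ℕ) (R : Node d) (m : ℝ), 0 ≤
      E chd (fun P : Node d => ⨍ y in nc P, v y) (fun P _ => (⨍ y in nc P, v y) ^ q) n R m := by
    intro n
    induction n with
    | zero => intro R m; exact Real.rpow_nonneg (hv R) _
    | succ n ih =>
      intro R m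
      exact div_nonneg (Finset.sum_nonneg fun σ _ => ih _ _) (Nat.cast_nonneg _)
  intro n
  induction n with
  | zero =>
    intro R m
    show ∫⁻ x in nc R, ENNReal.ofReal ((⨍ y in nc R, v y) ^ q) = _
    rw [setLIntegral_const, mul_comm]
    rfl
  | succ n ih =>
    intro R m
    have h1 : ∫⁻ x in nc R, ENNReal.ofReal (dy v (n + 1) R x ^ q) =
        ∑ σ, ∫⁻ x in nc (chd R σ), ENNReal.ofReal (dy v (n + 1) R x ^ q) := by
      nth_rw 1 [← iUnion_chd R]
      rw [lintegral_iUnion (fun σ => measurableSet_nc _) (disjoint_chd R), tsum_fintype]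
    have h2 : ∀ σ, ∫⁻ x in nc (chd R σ), ENNReal.ofReal (dy v (n + 1) R x ^ q) =
        ∫⁻ x in nc (chd R σ), ENNReal.ofReal (dy v n (chd R σ) x ^ q) := by
      intro σ
      refine setLIntegral_congr_fun (measurableSet_nc _) fun x hx => ?_
      show ENNReal.ofReal (dy v (n + 1) R x ^ q) = _
      rw [dy_succ v n R σ hx]
    rw [h1]
    simp only [h2]
    have h3 : ∀ σ, volume (nc (chd R σ)) = volume (nc R) / (Fintype.card (Fin d → Bool) : ℝ≥0∞) := by
      intro σ
      rw [nc, nc, volume_hcube, volume_hcube]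
      show ENNReal.ofReal (R.2.1 / 2) ^ d = _
      rw [ENNReal.ofReal_div_of_pos (by norm_num), ENNReal.div_eq_inv_mul, mul_pow,
        ENNReal.div_eq_inv_mul, ← ENNReal.inv_pow]
      simp
    rw [Finset.sum_congr rfl fun σ _ => ih (chd R σ)
      (max m (⨍ y in nc (chd R σ), v y))]
    simp only [h3]
    rw [← Finset.mul_sum, ← ENNReal.ofReal_sum_of_nonneg (fun σ _ => hE _ _ _)]
    show _ = volume (nc R) * ENNReal.ofReal ((∑ σ, _) / (Fintype.card (Fin d → Bool) : ℝ))
    rw [ENNReal.ofReal_div_of_pos card_pos', ENNReal.ofReal_natCast, ENNReal.div_eq_inv_mul,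
      ENNReal.div_eq_inv_mul]
    ring

theorem tendsto_dy {v : (Fin d → ℝ) → ℝ} (hv : LocallyIntegrable v) (R : Node d) :
    ∀ᵐ x ∂(volume.restrict (nc R)), Tendsto (fun n => dy v n R x) atTop (𝓝 (v x)) := by
  rw [ae_restrict_iff' (measurableSet_nc R)]
  filter_upwards [IsUnifLocDoublingMeasure.ae_tendsto_average (μ := volume) hv 1] with x hx hxR
  choose P hP1 hP2 hP3 using fun n => dy_eq v n R x hxR
  have hball : ∀ n, nc (P n) =ᵐ[volume]
      Metric.closedBall (fun i => (P n).1 i + (P n).2.1 / 2) ((P n).2.1 / 2) := by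
    intro n
    refine (hcube_ae_eq _ _).trans (Eq.eventuallyEq ?_)
    have h0 : 0 ≤ (P n).2.1 / 2 := (half_pos (P n).2.2).le
    rw [closedBall_pi _ h0, cube, ← Set.pi_univ_Icc]
    congr 1
    funext i
    rw [Real.closedBall_eq_Icc]
    congr 1 <;> ring
  have h1 := hx (ι := ℕ) (l := atTop) (fun n => fun i => (P n).1 i + (P n).2.1 / 2)
    (fun n => (P n).2.1 / 2) ?_ ?_
  · refine h1.congr fun n => ?_
    rw [hP3]
    exact (setAverage_congr (hball n)).symm
  · rw [tendsto_nhdsWithin_iff]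
    constructor
    · have h2 : Tendsto (fun n : ℕ => R.2.1 / 2 * ((1 / 2 : ℝ) ^ n)) atTop (𝓝 (R.2.1 / 2 * 0)) :=
        (tendsto_pow_atTop_nhds_zero_of_lt_one (by norm_num) (by norm_num)).const_mul _
      rw [mul_zero] at h2
      refine h2.congr fun n => ?_
      rw [hP2, one_div, inv_pow]; field_simp
    · exact Eventually.of_forall fun n => half_pos (P n).2.2
  · refine Eventually.of_forall fun n => ?_
    rw [one_mul]
    have h0 : 0 ≤ (P n).2.1 / 2 := (half_pos (P n).2.2).le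
    rw [closedBall_pi _ h0]
    intro i _
    have h3 : x i ∈ Set.Ico ((P n).1 i) ((P n).1 i + (P n).2.1) := hP1 n i (Set.mem_univ i)
    show x i ∈ Metric.closedBall ((P n).1 i + (P n).2.1 / 2) ((P n).2.1 / 2)
    rw [Real.closedBall_eq_Icc]
    constructor <;> linarith [h3.1, h3.2]

/-- Passage to the limit by Fatou's lemma. -/
theorem fatou {v : (Fin d → ℝ) → ℝ} (hv : LocallyIntegrable v)
    (hv0 : ∀ R : Node d, 0 ≤ ⨍ y in nc R, v y) {q : ℝ} (hq : 0 < q) (R : Node d) {B : ℝ}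
    (hB : ∀ n, E chd (fun P : Node d => ⨍ y in nc P, v y)
      (fun P _ => (⨍ y in nc P, v y) ^ q) n R (⨍ y in nc R, v y) ≤ B) :
    ∫⁻ x in nc R, ENNReal.ofReal (v x ^ q) ≤ volume (nc R) * ENNReal.ofReal B := by
  have h1 : ∫⁻ x in nc R, ENNReal.ofReal (v x ^ q) ≤
      ∫⁻ x in nc R, liminf (fun n => ENNReal.ofReal (dy v n R x ^ q)) atTop := by
    refine lintegral_mono_ae ?_
    filter_upwards [tendsto_dy hv R] with x hx
    have h2 : Tendsto (fun n => ENNReal.ofReal (dy v n R x ^ q)) atTop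
        (𝓝 (ENNReal.ofReal (v x ^ q))) :=
      (ENNReal.continuous_ofReal.tendsto _).comp
        (hx.rpow_const (Or.inr hq.le))
    rw [h2.liminf_eq]
  refine h1.trans ((lintegral_liminf_le fun n => ?_).trans ?_)
  · exact ((measurable_dy v n R).pow_const q).ennreal_ofReal
  · refine liminf_le_of_le ?_ ?_
    · isBoundedDefault
    · intro b hb
      obtain ⟨n, hn⟩ := hb.exists
      refine hn.trans ?_
      rw [lintegral_dy v q hv0 n R (⨍ y in nc R, v y)]
      exact mul_le_mul_right (ENNReal.ofReal_le_ofReal (hB n)) _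

end Limit

section Final

variable {d : ℕ}

/-- The average `⟨f⟩_Q = |Q|⁻¹ ∫_Q f` of a nonnegative function. -/
noncomputable def av (Q : Set (Fin d → ℝ)) (f : (Fin d → ℝ) → ℝ≥0∞) : ℝ≥0∞ :=
  (∫⁻ x in Q, f x) / volume Q

/-- The reverse Hölder constant `[w]_{RH_p}`: the supremum over all cubes `Q` of
`⟨w^p⟩_Q^{1/p} / ⟨w⟩_Q`. -/
noncomputable def rhConst (p : ℝ) (w : (Fin d → ℝ) → ℝ) : ℝ≥0∞ :=
  ⨆ (a : Fin d → ℝ) (h : {h : ℝ // 0 < h}),
    (av (cube a h) fun x => ENNReal.ofReal (w x) ^ p) ^ (1 / p) /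
      (av (cube a h) fun x => ENNReal.ofReal (w x))

/-- The explicit admissible constant `c_{d,p} = p / (2^{d+1} (p')^p)`, `p' = p / (p - 1)`. -/
noncomputable def gehringConst (d : ℕ) (p : ℝ) : ℝ := p / (2 ^ (d + 1) * (p / (p - 1)) ^ p)

theorem gehringConst_pos (d : ℕ) {p : ℝ} (hp : 1 < p) : 0 < gehringConst d p := by
  have : 0 < p / (p - 1) := div_pos (by linarith) (by linarith)
  exact div_pos (by linarith) (mul_pos (by positivity) (Real.rpow_pos_of_pos this _))

theorem laverage_cube {f : (Fin d → ℝ) → ℝ} (R : Node d) (hf : IntegrableOn f (nc R))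
    (hf0 : ∀ᵐ x, 0 ≤ f x) :
    (av (cube R.1 R.2.1) fun x => ENNReal.ofReal (f x)) = ENNReal.ofReal (⨍ x in nc R, f x) := by
  rw [ofReal_setAverage hf (ae_restrict_of_ae hf0), av]
  rw [setLIntegral_congr (hcube_ae_eq R.1 R.2.1).symm, measure_congr (hcube_ae_eq R.1 R.2.1).symm]
  rfl

theorem main {p : ℝ} (hp : 1 < p) {w : (Fin d → ℝ) → ℝ} (hw : ∀ᵐ x, 0 < w x)
    (hwi : LocallyIntegrable w) (hfin : rhConst p w < ∞) (R : Node d) {ε : ℝ} (hε : 0 < ε)
    (hεs : ε ≤ gehringConst d p * (rhConst p w).toReal ^ (-p)) :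
    (av (cube R.1 R.2.1) fun x => ENNReal.ofReal (w x) ^ (p + ε)) ≤
      2 * rhConst p w ^ (p + ε) * (av (cube R.1 R.2.1) fun x => ENNReal.ofReal (w x)) ^ (p + ε) := by
  have hp0 : 0 < p := by linarith
  have hw0 : ∀ᵐ x, 0 ≤ w x := hw.mono fun x hx => hx.le
  have hmeas : AEMeasurable w volume := hwi.aestronglyMeasurable.aemeasurable
  have hpow : ∀ᵐ x, ENNReal.ofReal (w x) ^ p = ENNReal.ofReal (w x ^ p) := by
    filter_upwards [hw0] with x hx
    rw [ENNReal.ofReal_rpow_of_nonneg hx hp0.le]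
  have hpow' : ∀ᵐ x, ENNReal.ofReal (w x) ^ (p + ε) =
      ENNReal.ofReal ((w x ^ p) ^ (1 + ε / p)) := by
    filter_upwards [hw0] with x hx
    rw [ENNReal.ofReal_rpow_of_nonneg hx (by linarith), ← Real.rpow_mul hx]
    congr 2; field_simp
  -- the averages of `w`
  have hF : ∀ P : Node d, (av (cube P.1 P.2.1) fun x => ENNReal.ofReal (w x)) =
      ENNReal.ofReal (⨍ x in nc P, w x) := fun P =>
    laverage_cube P (integrableOn_nc hwi P) hw0
  have hFpos : ∀ P : Node d, 0 < ⨍ x in nc P, w x := by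
    intro P
    rw [setAverage_eq, volume_nc, smul_eq_mul]
    refine mul_pos (inv_pos.2 (pow_pos P.2.2 _)) ?_
    rw [setIntegral_pos_iff_support_of_nonneg_ae (ae_restrict_of_ae hw0) (integrableOn_nc hwi P)]
    have h1 : (Function.support w ∩ nc P : Set (Fin d → ℝ)) =ᵐ[volume] nc P := by
      filter_upwards [hw] with x hx
      apply propext
      exact ⟨fun h => h.2, fun h => ⟨hx.ne', h⟩⟩
    rw [measure_congr h1]
    exact volume_nc_pos P
  -- the reverse Hölder inequality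
  have hM : ∀ P : Node d, (av (cube P.1 P.2.1) fun x => ENNReal.ofReal (w x) ^ p) ≤
      rhConst p w ^ p * ENNReal.ofReal (⨍ x in nc P, w x) ^ p := by
    intro P
    have h1 : (av (cube P.1 P.2.1) fun x => ENNReal.ofReal (w x) ^ p) ^ (1 / p) /
        (av (cube P.1 P.2.1) fun x => ENNReal.ofReal (w x)) ≤ rhConst p w :=
      le_iSup₂_of_le P.1 P.2 le_rfl
    rw [hF P] at h1
    have h2 : ENNReal.ofReal (⨍ x in nc P, w x) ≠ 0 := (ENNReal.ofReal_pos.2 (hFpos P)).ne'
    rw [ENNReal.div_le_iff h2 ENNReal.ofReal_ne_top] at h1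
    have h3 := ENNReal.rpow_le_rpow h1 hp0.le
    rwa [← ENNReal.rpow_mul, one_div_mul_cancel hp0.ne', ENNReal.rpow_one,
      ENNReal.mul_rpow_of_nonneg _ _ hp0.le] at h3
  have hMtop : ∀ P : Node d, (av (cube P.1 P.2.1) fun x => ENNReal.ofReal (w x) ^ p) < ∞ := by
    intro P
    refine (hM P).trans_lt ?_
    exact ENNReal.mul_lt_top (ENNReal.rpow_lt_top_of_nonneg hp0.le hfin.ne)
      (ENNReal.rpow_lt_top_of_nonneg hp0.le ENNReal.ofReal_ne_top)
  -- local integrability of `w ^ p`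
  have hvm : AEStronglyMeasurable (fun x => w x ^ p) volume :=
    (hmeas.pow_const p).aestronglyMeasurable
  have hvc : ∀ P : Node d, IntegrableOn (fun x => w x ^ p) (cube P.1 P.2.1) := by
    intro P
    refine ⟨hvm.restrict, ?_⟩
    have h1 := hMtop P
    rw [av] at h1
    have h2 : volume (cube P.1 P.2.1) ≠ 0 := by
      rw [← measure_congr (hcube_ae_eq P.1 P.2.1)]
      exact (volume_nc_pos P).ne'
    have h2' : volume (cube P.1 P.2.1) ≠ ∞ := by
      rw [← measure_congr (hcube_ae_eq P.1 P.2.1)]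
      exact (volume_nc_lt_top P).ne
    have h3 : ∫⁻ x in cube P.1 P.2.1, ENNReal.ofReal (w x) ^ p < ∞ := by
      by_contra h
      rw [not_lt, top_le_iff] at h
      rw [h, ENNReal.top_div_of_ne_top h2'] at h1
      exact lt_irrefl _ h1
    have h4 : ∫⁻ x in cube P.1 P.2.1, ‖w x ^ p‖ₑ =
        ∫⁻ x in cube P.1 P.2.1, ENNReal.ofReal (w x) ^ p := by
      refine lintegral_congr_ae (ae_restrict_of_ae ?_)
      filter_upwards [hpow, hw0] with x hx hx0
      rw [hx, Real.enorm_of_nonneg (Real.rpow_nonneg hx0 _)]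
    rw [HasFiniteIntegral, h4]
    exact h3
  have hv : LocallyIntegrable (fun x => w x ^ p) := by
    rw [locallyIntegrable_iff]
    intro k hk
    obtain ⟨r, hr⟩ := hk.isBounded.subset_closedBall 0
    have hr' : k ⊆ cube (fun _ : Fin d => -(max r 1)) (2 * max r 1) := by
      intro x hx
      have h1 := hr hx
      rw [mem_closedBall_zero_iff] at h1
      have h2 : ‖x‖ ≤ max r 1 := h1.trans (le_max_left _ _)
      rw [cube, Set.mem_Icc]
      constructor
      · intro i
        have h3 := (norm_le_pi_norm x i).trans h2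
        rw [Real.norm_eq_abs, abs_le] at h3
        exact h3.1
      · intro i
        have h3 := (norm_le_pi_norm x i).trans h2
        rw [Real.norm_eq_abs, abs_le] at h3
        show x i ≤ -(max r 1) + 2 * max r 1
        linarith [h3.2]
    have hpos : 0 < 2 * max r 1 := by
      have : (1 : ℝ) ≤ max r 1 := le_max_right _ _
      linarith
    exact (hvc (fun _ => -(max r 1), ⟨2 * max r 1, hpos⟩)).mono_set hr'
  have hv0 : ∀ᵐ x, 0 ≤ w x ^ p := hw0.mono fun x hx => Real.rpow_nonneg hx _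
  have hu : ∀ P : Node d, (av (cube P.1 P.2.1) fun x => ENNReal.ofReal (w x) ^ p) =
      ENNReal.ofReal (⨍ x in nc P, w x ^ p) := by
    intro P
    rw [← laverage_cube P (integrableOn_nc hv P) hv0, av, av]
    congr 1
    exact lintegral_congr_ae (ae_restrict_of_ae hpow)
  set A : ℝ := (rhConst p w).toReal with hA
  have hAr : rhConst p w = ENNReal.ofReal A := (ENNReal.ofReal_toReal hfin.ne).symm
  have hA0 : 0 ≤ A := ENNReal.toReal_nonneg
  have huF : ∀ P : Node d, ⨍ x in nc P, w x ^ p ≤ A ^ p * (⨍ x in nc P, w x) ^ p := by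
    intro P
    have h1 := hM P
    rw [hu P, hAr, ENNReal.ofReal_rpow_of_nonneg hA0 hp0.le,
      ENNReal.ofReal_rpow_of_nonneg (hFpos P).le hp0.le,
      ← ENNReal.ofReal_mul (Real.rpow_nonneg hA0 _)] at h1
    exact (ENNReal.ofReal_le_ofReal_iff
      (mul_nonneg (Real.rpow_nonneg hA0 _) (Real.rpow_nonneg (hFpos P).le _))).1 h1
  have hFu : ∀ P : Node d, (⨍ x in nc P, w x) ^ p ≤ ⨍ x in nc P, w x ^ p := by
    intro P
    refine (convexOn_rpow hp.le).map_set_average_le (Real.continuous_rpow_const hp0.le).continuousOn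
      isClosed_Ici (volume_nc_pos P).ne' (volume_nc_lt_top P).ne ?_ (integrableOn_nc hwi P)
      (integrableOn_nc hv P)
    exact ae_restrict_of_ae hw0
  have hApos : 0 < A := by
    rcases hA0.eq_or_lt with h | h
    · exfalso
      have h1 := (hFu R).trans (huF R)
      rw [← h, Real.zero_rpow hp0.ne', zero_mul] at h1
      exact absurd h1 (not_le.2 (Real.rpow_pos_of_pos (hFpos R) _))
    · exact h
  have hδ : 0 < ε / p := div_pos hε hp0
  have hC : 0 < (p / (p - 1)) ^ p :=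
    Real.rpow_pos_of_pos (div_pos hp0 (by linarith)) _
  have hsmall : 2 * (A ^ p * (p / (p - 1)) ^ p) *
      ((Fintype.card (Fin d → Bool) : ℝ) * (ε / p / (1 + ε / p))) ≤ 1 := by
    have h1 : ε / p / (1 + ε / p) ≤ ε / p := div_le_self hδ.le (by linarith)
    have h2 : (Fintype.card (Fin d → Bool) : ℝ) = 2 ^ d := by simp
    have hAp : 0 < A ^ p := Real.rpow_pos_of_pos hApos _
    rw [h2]
    calc 2 * (A ^ p * (p / (p - 1)) ^ p) * (2 ^ d * (ε / p / (1 + ε / p)))
        ≤ 2 * (A ^ p * (p / (p - 1)) ^ p) * (2 ^ d * (ε / p)) := by gcongr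
      _ ≤ 2 * (A ^ p * (p / (p - 1)) ^ p) *
          (2 ^ d * ((gehringConst d p * A ^ (-p)) / p)) := by gcongr
      _ = 1 := by
        rw [gehringConst, Real.rpow_neg hA0, pow_succ]
        field_simp
  have htree := fun n => tree_main (ch := chd) (ι := Fin d → Bool) hp
    (Real.rpow_nonneg hA0 p) hδ (F := fun P : Node d => ⨍ x in nc P, w x)
    (u := fun P : Node d => ⨍ x in nc P, w x ^ p) (average_chd hwi) (average_chd hv)
    (fun P => (hFpos P).le) hFu huF hsmall n R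
  have hfatou := fatou hv (fun P => (Real.rpow_nonneg (hFpos P).le p).trans (hFu P))
    (q := 1 + ε / p) (by linarith) R htree
  -- conclusion
  have hvol0 : volume (cube R.1 R.2.1) ≠ 0 := by
    rw [← measure_congr (hcube_ae_eq R.1 R.2.1)]
    exact (volume_nc_pos R).ne'
  have hvol1 : volume (cube R.1 R.2.1) ≠ ∞ := by
    rw [← measure_congr (hcube_ae_eq R.1 R.2.1)]
    exact (volume_nc_lt_top R).ne
  have h1 : (av (cube R.1 R.2.1) fun x => ENNReal.ofReal (w x) ^ (p + ε)) ≤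
      ENNReal.ofReal (2 * (⨍ x in nc R, w x ^ p) ^ (1 + ε / p)) := by
    rw [av, ENNReal.div_le_iff hvol0 hvol1, mul_comm,
      ← measure_congr (hcube_ae_eq R.1 R.2.1), ← setLIntegral_congr (hcube_ae_eq R.1 R.2.1)]
    refine le_trans (le_of_eq ?_) hfatou
    exact lintegral_congr_ae (ae_restrict_of_ae hpow')
  refine h1.trans ?_
  have h2 : (⨍ x in nc R, w x ^ p) ^ (1 + ε / p) ≤
      A ^ (p + ε) * (⨍ x in nc R, w x) ^ (p + ε) := by
    have h3 : (⨍ x in nc R, w x ^ p) ^ (1 + ε / p) ≤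
        (A ^ p * (⨍ x in nc R, w x) ^ p) ^ (1 + ε / p) :=
      Real.rpow_le_rpow ((Real.rpow_nonneg (hFpos R).le p).trans (hFu R)) (huF R) (by linarith)
    rw [Real.mul_rpow (Real.rpow_nonneg hA0 _) (Real.rpow_nonneg (hFpos R).le _),
      ← Real.rpow_mul hA0, ← Real.rpow_mul (hFpos R).le] at h3
    have h4 : p * (1 + ε / p) = p + ε := by field_simp
    rwa [h4] at h3
  rw [hF R, hAr, ENNReal.ofReal_rpow_of_nonneg hA0 (by linarith),
    ENNReal.ofReal_rpow_of_nonneg (hFpos R).le (by linarith)]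
  have h5 : (2 : ℝ≥0∞) = ENNReal.ofReal 2 := by simp
  rw [h5, ← ENNReal.ofReal_mul (by norm_num), ← ENNReal.ofReal_mul (by positivity)]
  refine ENNReal.ofReal_le_ofReal ?_
  linarith

end Final

/-- **Answer to Q1 (yes).**  For every dimension `d` and `1 < p < ∞`, with the explicit constant
`c_{d,p} = p / (2^{d+1} (p')^p)`: for every `w ∈ RH_p`, every cube `Q` and every
`0 < ε ≤ c_{d,p} [w]_{RH_p}^{-p}` one has
`⟨w^{p+ε}⟩_Q ≤ 2 [w]_{RH_p}^{p+ε} ⟨w⟩_Q^{p+ε}`. -/
theorem result (d : ℕ) (p : ℝ) (hp : 1 < p) :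
    0 < gehringConst d p ∧
    ∀ w : (Fin d → ℝ) → ℝ, (∀ᵐ x, 0 < w x) → LocallyIntegrable w → rhConst p w < ∞ →
      ∀ (a : Fin d → ℝ) (h : ℝ), 0 < h → ∀ ε : ℝ, 0 < ε →
        ε ≤ gehringConst d p * (rhConst p w).toReal ^ (-p) →
        (av (cube a h) fun x => ENNReal.ofReal (w x) ^ (p + ε)) ≤
          2 * rhConst p w ^ (p + ε) * (av (cube a h) fun x => ENNReal.ofReal (w x)) ^ (p + ε) :=
  ⟨gehringConst_pos d hp, fun _ hw hwi hfin a h hh _ hε hεs =>
    main hp hw hwi hfin (a, ⟨h, hh⟩) hε hεs⟩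

end Pool.Agent.Results.MP_edcda5_an.ExplicitGehring
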